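import Mathlib
import Pool.Agent.R135.MirrorMarkov

/-!
# MP_6870a6_co: distinct vertices of the mirror Markov tree have distinct maxima
-/

set_option autoImplicit false
open Polynomial LaurentPolynomial

namespace Pool.Agent.Results.MP_6870a6_co.MaximaDistinct

open Pool.Agent.R135.MirrorMarkov

/-! ## Exponent vectors -/

/-- follow a list of directions from the pair `(x, y)` -/
def run : ℕ × ℕ → ℕ × ℕ → List Dir → (ℕ × ℕ) × (ℕ × ℕ)
  | x, y, [] => (x, y)
  | x, y, Dir.left :: s => run x (x + y) s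
  | x, y, Dir.right :: s => run y (x + y) s

/-- the vectors of `a` and `b` -/
def vec (s : List Dir) : (ℕ × ℕ) × (ℕ × ℕ) := run (1, 0) (0, 1) s

theorem run_append (s s' : List Dir) : ∀ x y : ℕ × ℕ,
    run x y (s ++ s') = run (run x y s).1 (run x y s).2 s' := by
  induction s with
  | nil => intro x y; rfl
  | cons d s ih =>
    intro x y
    cases d
    · exact ih x (x + y)
    · exact ih y (x + y)

theorem vec_left (s : List Dir) : vec (s ++ [Dir.left]) =
    ((vec s).1, (vec s).1 + (vec s).2) := by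
  unfold vec; rw [run_append]; rfl

theorem vec_right (s : List Dir) : vec (s ++ [Dir.right]) =
    ((vec s).2, (vec s).1 + (vec s).2) := by
  unfold vec; rw [run_append]; rfl

/-- `p₁ x + p₂ y` -/
def lin (x y p : ℕ × ℕ) : ℕ × ℕ := (p.1 * x.1 + p.2 * y.1, p.1 * x.2 + p.2 * y.2)

theorem run_lin (s : List Dir) : ∀ x y : ℕ × ℕ,
    run x y s = (lin x y (vec s).1, lin x y (vec s).2) := by
  induction s with
  | nil =>
    intro x y
    simp [run, vec, lin]
  | cons d s ih =>
    intro x y
    cases d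
    · have h1 : run x y (Dir.left :: s) = run x (x + y) s := rfl
      have h2 : vec (Dir.left :: s) = run (1, 0) ((1, 0) + (0, 1)) s := rfl
      rw [h1, h2, ih x (x + y), ih (1, 0) ((1, 0) + (0, 1))]
      simp only [lin, Prod.fst_add, Prod.snd_add, Prod.mk.injEq]
      refine ⟨⟨?_, ?_⟩, ?_, ?_⟩ <;> ring
    · have h1 : run x y (Dir.right :: s) = run y (x + y) s := rfl
      have h2 : vec (Dir.right :: s) = run (0, 1) ((1, 0) + (0, 1)) s := rfl
      rw [h1, h2, ih y (x + y), ih (0, 1) ((1, 0) + (0, 1))]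
      simp only [lin, Prod.fst_add, Prod.snd_add, Prod.mk.injEq]
      refine ⟨⟨?_, ?_⟩, ?_, ?_⟩ <;> ring

/-- the vector of `c` -/
def tot (s : List Dir) : ℕ × ℕ := (vec s).1 + (vec s).2

theorem tot_cons_left (s : List Dir) : tot (Dir.left :: s) = ((tot s).1 + (tot s).2, (tot s).2) := by
  have h2 : vec (Dir.left :: s) = run (1, 0) ((1, 0) + (0, 1)) s := rfl
  unfold tot
  rw [h2, run_lin s]
  simp only [lin, Prod.fst_add, Prod.snd_add, Prod.mk_add_mk, Prod.mk.injEq]
  refine ⟨?_, ?_⟩ <;> ring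

theorem tot_cons_right (s : List Dir) :
    tot (Dir.right :: s) = ((tot s).2, (tot s).1 + (tot s).2) := by
  have h2 : vec (Dir.right :: s) = run (0, 1) ((1, 0) + (0, 1)) s := rfl
  unfold tot
  rw [h2, run_lin s]
  simp only [lin, Prod.fst_add, Prod.snd_add, Prod.mk_add_mk, Prod.mk.injEq]
  refine ⟨?_, ?_⟩ <;> ring

theorem tot_pos (s : List Dir) : 1 ≤ (tot s).1 ∧ 1 ≤ (tot s).2 := by
  induction s with
  | nil => exact ⟨le_rfl, le_rfl⟩
  | cons d s ih =>
    cases d
    · rw [tot_cons_left]; simp only; omega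
    · rw [tot_cons_right]; simp only; omega

theorem tot_injective : Function.Injective tot := by
  intro s
  induction s with
  | nil =>
    intro s' h
    cases s' with
    | nil => rfl
    | cons d s' =>
      exfalso
      have hp := tot_pos s'
      have h0 : tot [] = (1, 1) := rfl
      rw [h0] at h
      cases d
      · rw [tot_cons_left] at h
        have := congrArg Prod.fst h
        simp only at this; omega
      · rw [tot_cons_right] at h
        have := congrArg Prod.snd h
        simp only at this; omega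
  | cons d s ih =>
    intro s' h
    cases s' with
    | nil =>
      exfalso
      have hp := tot_pos s
      have h0 : tot [] = (1, 1) := rfl
      rw [h0] at h
      cases d
      · rw [tot_cons_left] at h
        have := congrArg Prod.fst h
        simp only at this; omega
      · rw [tot_cons_right] at h
        have := congrArg Prod.snd h
        simp only at this; omega
    | cons d' s' =>
      have hp := tot_pos s
      have hp' := tot_pos s'
      cases d <;> cases d'
      · rw [tot_cons_left, tot_cons_left] at h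
        have h1 := congrArg Prod.fst h
        have h2 := congrArg Prod.snd h
        simp only at h1 h2
        rw [ih (Prod.ext (by omega) h2 : tot s = tot s')]
      · exfalso
        rw [tot_cons_left, tot_cons_right] at h
        have h1 := congrArg Prod.fst h
        have h2 := congrArg Prod.snd h
        simp only at h1 h2
        omega
      · exfalso
        rw [tot_cons_left, tot_cons_right] at h
        have h1 := congrArg Prod.fst h
        have h2 := congrArg Prod.snd h
        simp only at h1 h2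
        omega
      · rw [tot_cons_right, tot_cons_right] at h
        have h1 := congrArg Prod.fst h
        have h2 := congrArg Prod.snd h
        simp only at h1 h2
        rw [ih (Prod.ext (by omega) h1 : tot s = tot s')]

/-! ## Extreme coefficients -/

/-- degree, constant and leading coefficient of the polynomial with vector `p` -/
def Good (x : ℤ[X]) (p : ℕ × ℕ) : Prop :=
  x.natDegree + 1 = p.1 + 2 * p.2 ∧ x.coeff 0 = 2 ^ (p.1 / 2) * 3 ^ (p.2 / 2) ∧
    x.leadingCoeff = 2 ^ ((p.1 + 1) / 2) * 3 ^ ((p.2 + 1) / 2 - 1) ∧ 1 ≤ p.2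

/-- the generic mutation step -/
theorem good_step {x y c d : ℤ[X]} {s : ℤ} {e : ℕ} (h : Mut x y c d s e) (he : 1 ≤ e)
    (p r g δ : ℕ × ℕ) (hy : Good y r) (hc : Good c g) (hg : g = p + r) (hδ : δ = p + g) :
    Good d δ := by
  obtain ⟨y1, y2, y3, y4⟩ := hy
  obtain ⟨c1, c2, c3, c4⟩ := hc
  subst hg hδ
  simp only [Good, Prod.fst_add, Prod.snd_add] at *
  have h1 := h.natDegree_d
  have h2 := h.coeff_d he
  have h3 := h.lead_d
  have n1 : y.leadingCoeff ≠ 0 := h.yl.ne'
  have n2 : y.coeff 0 ≠ 0 := h.y0.ne'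
  refine ⟨by omega, ?_, ?_, by omega⟩
  · apply mul_right_cancel₀ n1
    rw [h2, c2, c3, y3]
    have e1 : (p.1 + r.1) / 2 + (p.1 + r.1 + 1) / 2 = (p.1 + (p.1 + r.1)) / 2 + (r.1 + 1) / 2 := by
      omega
    have e2 : (p.2 + r.2) / 2 + ((p.2 + r.2 + 1) / 2 - 1) =
        (p.2 + (p.2 + r.2)) / 2 + ((r.2 + 1) / 2 - 1) := by
      omega
    calc (2 : ℤ) ^ ((p.1 + r.1) / 2) * 3 ^ ((p.2 + r.2) / 2) *
          (2 ^ ((p.1 + r.1 + 1) / 2) * 3 ^ ((p.2 + r.2 + 1) / 2 - 1))
        = 2 ^ ((p.1 + r.1) / 2 + (p.1 + r.1 + 1) / 2) *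
          3 ^ ((p.2 + r.2) / 2 + ((p.2 + r.2 + 1) / 2 - 1)) := by rw [pow_add, pow_add]; ring
      _ = _ := by rw [e1, e2, pow_add, pow_add]; ring
  · apply mul_right_cancel₀ n2
    rw [h3, c2, c3, y2]
    have e1 : (p.1 + r.1 + 1) / 2 + (p.1 + r.1) / 2 = (p.1 + (p.1 + r.1) + 1) / 2 + r.1 / 2 := by
      omega
    have e2 : ((p.2 + r.2 + 1) / 2 - 1) + (p.2 + r.2) / 2 =
        ((p.2 + (p.2 + r.2) + 1) / 2 - 1) + r.2 / 2 := by
      omega
    calc (2 : ℤ) ^ ((p.1 + r.1 + 1) / 2) * 3 ^ ((p.2 + r.2 + 1) / 2 - 1) *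
          (2 ^ ((p.1 + r.1) / 2) * 3 ^ ((p.2 + r.2) / 2))
        = 2 ^ ((p.1 + r.1 + 1) / 2 + (p.1 + r.1) / 2) *
          3 ^ (((p.2 + r.2 + 1) / 2 - 1) + (p.2 + r.2) / 2) := by rw [pow_add, pow_add]; ring
      _ = _ := by rw [e1, e2, pow_add, pow_add]; ring

/-- the formulas hold at the vertex `t` reached by `w` -/
def GoodInv (w : List Dir) (t : Triple) (ε : ℤ) : Prop :=
  Good t.b (vec w).2 ∧ Good t.c ((vec w).1 + (vec w).2) ∧
    (Good t.a (vec w).1 ∨ (t.a = 1 ∧ (vec w).1 = (1, 0) ∧ ε = 1 ∧ (vec w).2.2 = 1))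

theorem left_data {t t' : Triple} {ε : ℤ} (h : Inv t ε) (hm : IsLeftMut ε t t') :
    ∃ e : ℕ, (e : ℤ) = (t.c.natDegree : ℤ) - t.a.natDegree + ε ∧
      t'.c * mirrorIm t.b = X ^ e * S t.a + S t.c ∧ t' = ⟨t.a, t.c, t'.c⟩ := by
  obtain ⟨h1, h2, h3⟩ := hm
  have h4 := h.deg
  have h5 := h.ab
  obtain ⟨e, he⟩ : ∃ e : ℕ, (e : ℤ) = (t.c.natDegree : ℤ) - t.a.natDegree + ε :=
    ⟨((t.c.natDegree : ℤ) - t.a.natDegree + ε).toNat, by rcases h.hε with h6 | h6 <;> omega⟩
  refine ⟨e, he, ?_, ?_⟩
  · exact (mut_iff ε t.a t.c t.b t'.c e he).mp h3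
  · rw [← h1, ← h2]

theorem right_data {t t' : Triple} {ε : ℤ} (h : Inv t ε) (hm : IsRightMut (-ε) t t') :
    ∃ e : ℕ, (e : ℤ) = (t.c.natDegree : ℤ) - t.b.natDegree + -ε ∧
      t'.c * mirrorIm t.a = X ^ e * S t.b + S t.c ∧ t' = ⟨t.b, t.c, t'.c⟩ := by
  obtain ⟨h1, h2, h3⟩ := hm
  have h4 := h.deg
  have h5 := h.ab
  obtain ⟨e, he⟩ : ∃ e : ℕ, (e : ℤ) = (t.c.natDegree : ℤ) - t.b.natDegree + -ε :=
    ⟨((t.c.natDegree : ℤ) - t.b.natDegree + -ε).toNat, by rcases h.hε with h6 | h6 <;> omega⟩
  refine ⟨e, he, ?_, ?_⟩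
  · exact (mut_iff (-ε) t.b t.c t.a t'.c e he).mp h3
  · rw [← h1, ← h2]

theorem below_inv {w : List Dir} {t : Triple} {ε : ℤ} (h : Below w t ε) :
    Inv t ε ∧ GoodInv w t ε := by
  induction h with
  | root =>
    refine ⟨inv_t0, ?_, ?_, Or.inr ⟨rfl, rfl, rfl, rfl⟩⟩
    · obtain ⟨k1, k2, k3, k4⟩ := coeffs_t0
      refine ⟨?_, ?_, ?_, le_rfl⟩
      · simp only [t0]; rw [t0b_natDegree]; rfl
      · simp only [t0]; rw [k1]; rfl
      · simp only [t0]; rw [k2]; rfl
    · obtain ⟨k1, k2, k3, k4⟩ := coeffs_t0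
      refine ⟨?_, ?_, ?_, le_rfl⟩
      · simp only [t0]; rw [t0c_natDegree]; rfl
      · simp only [t0]; rw [k3]; rfl
      · simp only [t0]; rw [k4]; rfl
  | @left w t t' ε hb hm ih =>
    obtain ⟨hI, hb1, hc1, ha1⟩ := ih
    obtain ⟨e, he, hd, ht⟩ := left_data hI hm
    have hM := hI.leftMut t'.c e he hd
    have hdeg := hI.deg
    have hab := hI.ab
    rw [ht]
    refine ⟨hI.left t'.c e he hd, ?_, ?_, ?_⟩
    · rw [vec_left]; exact hc1
    · rw [vec_left]
      exact good_step hM (by rcases hI.hε with h6 | h6 <;> omega) (vec w).1 (vec w).2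
        ((vec w).1 + (vec w).2) _ hb1 hc1 rfl rfl
    · rw [vec_left]
      rcases ha1 with h1 | ⟨h1, h2, h3, h4⟩
      · exact Or.inl h1
      · refine Or.inr ⟨h1, h2, h3, ?_⟩
        rw [h2]
        change 0 + (vec w).2.2 = 1
        omega
  | @right w t t' ε hb hm ih =>
    obtain ⟨hI, hb1, hc1, ha1⟩ := ih
    obtain ⟨e, he, hd, ht⟩ := right_data hI hm
    have hM := hI.rightMut t'.c e he hd
    have hdeg := hI.deg
    have hab := hI.ab
    rw [ht]
    refine ⟨hI.right t'.c e he hd, ?_, ?_, ?_⟩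
    · rw [vec_right]; exact hc1
    · rw [vec_right]
      rcases ha1 with h1 | ⟨h1, h2, h3, h4⟩
      · refine good_step hM ?_ (vec w).2 (vec w).1 ((vec w).1 + (vec w).2) _ h1 hc1
          (add_comm _ _) rfl
        have h5 := h1.1
        have h6 := h1.2.2.2
        rcases hI.hε with h6 | h6 <;> omega
      · -- the special case `a = 1`
        obtain ⟨b1, b2, b3, b4⟩ := hb1
        obtain ⟨c1, c2, c3, c4⟩ := hc1
        rcases hv : vec w with ⟨⟨α1, α2⟩, ⟨k, β2⟩⟩
        rw [hv] at h2 h4 b1 b2 b3 c1 c2 c3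
        simp only at h2 h4 b1 b2 b3 c1 c2 c3
        obtain ⟨rfl, rfl⟩ := Prod.mk.inj h2
        subst h4
        have hda : t.a.natDegree = 0 := by rw [h1, natDegree_one]
        have he0 : e = 0 := by
          subst h3
          rw [hda] at hdeg
          omega
        have hn := hM.natDegree_d
        have hc := hM.coeff_d' he0
        have hl := hM.lead_d
        have la : t.a.leadingCoeff = 1 := by rw [h1, leadingCoeff_one]
        have ca : t.a.coeff 0 = 1 := by rw [h1, coeff_one_zero]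
        rw [la, mul_one] at hc
        rw [ca, mul_one] at hl
        simp only [Good, Prod.mk_add_mk] at *
        refine ⟨by omega, ?_, ?_, by norm_num⟩
        · rw [hc, b2, b3, c2, c3]
          have e1 : k / 2 + (k + 1) / 2 = k := by omega
          have e2 : (1 + k) / 2 + (1 + k + 1) / 2 = k + 1 := by omega
          have e3 : (k + (1 + k)) / 2 = k := by omega
          rw [e3]
          norm_num
          have e4 : (2 : ℤ) ^ (k / 2) * 2 ^ ((k + 1) / 2) = 2 ^ k := by rw [← pow_add, e1]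
          have e5 : (2 : ℤ) ^ ((1 + k) / 2) * 2 ^ ((1 + k + 1) / 2) = 2 ^ (k + 1) := by
            rw [← pow_add, e2]
          rw [e4, e5]
          ring
        · rw [hl, c2, c3]
          have e2 : (1 + k + 1) / 2 + (1 + k) / 2 = k + 1 := by omega
          have e3 : (k + (1 + k) + 1) / 2 = k + 1 := by omega
          rw [e3]
          norm_num
          rw [← pow_add, e2]
    · rw [vec_right]; exact Or.inl hb1

/-! ## Uniqueness -/

theorem pow_unique (a b c d : ℕ) (h : 2 ^ a * 3 ^ b = 2 ^ c * 3 ^ d) : a = c ∧ b = d := by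
  have h2 : a = c := by
    have h1 := congrArg (fun n => padicValNat 2 n) h
    have : Fact (Nat.Prime 2) := ⟨Nat.prime_two⟩
    have h3 : ∀ n, padicValNat 2 (3 ^ n) = 0 := fun n =>
      padicValNat.eq_zero_of_not_dvd (fun h => by
        have := Nat.prime_two.dvd_of_dvd_pow h
        omega)
    rw [padicValNat.mul (by positivity) (by positivity),
      padicValNat.mul (by positivity) (by positivity), padicValNat.prime_pow,
      padicValNat.prime_pow, h3, h3] at h1
    omega
  subst h2
  refine ⟨rfl, ?_⟩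
  have h3 := Nat.eq_of_mul_eq_mul_left (by positivity) h
  exact Nat.pow_right_injective (le_refl _ |>.trans (by norm_num)) h3

theorem good_unique (x : ℤ[X]) (p r : ℕ × ℕ) (hp : Good x p) (hr : Good x r) : p = r := by
  obtain ⟨p1, p2, p3, p4⟩ := hp
  obtain ⟨r1, r2, r3, r4⟩ := hr
  have key : ∀ q : ℕ × ℕ, 1 ≤ q.2 → x.coeff 0 = 2 ^ (q.1 / 2) * 3 ^ (q.2 / 2) →
      x.leadingCoeff = 2 ^ ((q.1 + 1) / 2) * 3 ^ ((q.2 + 1) / 2 - 1) →
      x.coeff 0 * x.leadingCoeff = ((2 ^ q.1 * 3 ^ (q.2 - 1) : ℕ) : ℤ) := by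
    intro q h1 h2 h3
    rw [h2, h3]
    push_cast
    have e1 : q.1 = q.1 / 2 + (q.1 + 1) / 2 := by omega
    have e2 : q.2 - 1 = q.2 / 2 + ((q.2 + 1) / 2 - 1) := by omega
    calc (2 : ℤ) ^ (q.1 / 2) * 3 ^ (q.2 / 2) * (2 ^ ((q.1 + 1) / 2) * 3 ^ ((q.2 + 1) / 2 - 1))
        = 2 ^ (q.1 / 2 + (q.1 + 1) / 2) * 3 ^ (q.2 / 2 + ((q.2 + 1) / 2 - 1)) := by
          rw [pow_add, pow_add]; ring
      _ = _ := by rw [← e1, ← e2]
  have h1 := key p p4 p2 p3
  rw [key r r4 r2 r3] at h1
  have h2 : 2 ^ r.1 * 3 ^ (r.2 - 1) = 2 ^ p.1 * 3 ^ (p.2 - 1) := by exact_mod_cast h1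
  obtain ⟨h3, h4⟩ := pow_unique _ _ _ _ h2
  exact Prod.ext h3.symm (by omega)

theorem below_left_inv {w : List Dir} {t' : Triple} {ε : ℤ} (h : Below (w ++ [Dir.left]) t' ε) :
    ∃ t, Below w t ε ∧ IsLeftMut ε t t' := by
  generalize hu : w ++ [Dir.left] = u at h
  cases h with
  | root => simp at hu
  | @left w' t _ _ hb hm =>
    have := List.append_inj' hu rfl
    rw [this.1]
    exact ⟨t, hb, hm⟩
  | @right w' t _ _ hb hm =>
    have := (List.append_inj' hu rfl).2
    simp at this

theorem below_right_inv {w : List Dir} {t' : Triple} {ε : ℤ}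
    (h : Below (w ++ [Dir.right]) t' ε) : ∃ t, Below w t (-ε) ∧ IsRightMut ε t t' := by
  generalize hu : w ++ [Dir.right] = u at h
  cases h with
  | root => simp at hu
  | @left w' t _ _ hb hm =>
    have := (List.append_inj' hu rfl).2
    simp at this
  | @right w' t _ ε' hb hm =>
    have := List.append_inj' hu rfl
    rw [this.1, neg_neg]
    exact ⟨t, hb, hm⟩

theorem triple_ext {t t' : Triple} (h1 : t.a = t'.a) (h2 : t.b = t'.b) (h3 : t.c = t'.c) :
    t = t' := by
  cases t; cases t'; simp only at h1 h2 h3; subst h1 h2 h3; rfl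

theorem mirror_ne_zero (x : ℤ[X]) (h : 0 < x.leadingCoeff) : mirrorIm x ≠ 0 := by
  intro h0
  have := coeff_zero_mirror x
  rw [h0, coeff_zero] at this
  omega

theorem toLaurent_cancel (x y z : ℤ[X]) (hz : z ≠ 0)
    (h : toLaurent x * toLaurent z = toLaurent y * toLaurent z) : x = y := by
  rw [← map_mul, ← map_mul] at h
  exact mul_right_cancel₀ hz (Polynomial.toLaurent_injective h)

theorem below_unique (w : List Dir) : ∀ (t t' : Triple) (ε ε' : ℤ), Below w t ε → Below w t' ε' →
    t = t' ∧ ε = ε' := by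
  induction w using List.reverseRecOn with
  | nil =>
    intro t t' ε ε' h h'
    have key : ∀ (u : List Dir) (t : Triple) (ε : ℤ), Below u t ε → u = [] → t = t0 ∧ ε = 1 := by
      intro u t ε h hu
      cases h with
      | root => exact ⟨rfl, rfl⟩
      | left _ _ => simp at hu
      | right _ _ => simp at hu
    obtain ⟨h1, h2⟩ := key _ _ _ h rfl
    obtain ⟨h3, h4⟩ := key _ _ _ h' rfl
    rw [h1, h2, h3, h4]
    exact ⟨rfl, rfl⟩
  | append_singleton w d ih =>
    intro t t' ε ε' h h'
    cases d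
    · obtain ⟨s, hs, hm⟩ := below_left_inv h
      obtain ⟨s', hs', hm'⟩ := below_left_inv h'
      obtain ⟨rfl, rfl⟩ := ih _ _ _ _ hs hs'
      refine ⟨triple_ext (hm.1.trans hm'.1.symm) (hm.2.1.trans hm'.2.1.symm) ?_, rfl⟩
      have hI := (below_inv hs).1
      exact toLaurent_cancel _ _ _ (mirror_ne_zero _ hI.bl) (hm.2.2.trans hm'.2.2.symm)
    · obtain ⟨s, hs, hm⟩ := below_right_inv h
      obtain ⟨s', hs', hm'⟩ := below_right_inv h'
      obtain ⟨rfl, hε⟩ := ih _ _ _ _ hs hs'
      have hε' : ε = ε' := by omega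
      subst hε'
      refine ⟨triple_ext (hm.1.trans hm'.1.symm) (hm.2.1.trans hm'.2.1.symm) ?_, rfl⟩
      have hI := (below_inv hs).1
      exact toLaurent_cancel _ _ _ (mirror_ne_zero _ hI.al) (hm.2.2.trans hm'.2.2.symm)

theorem below_exists (w : List Dir) : ∃ (t : Triple) (ε : ℤ), Below w t ε := by
  induction w using List.reverseRecOn with
  | nil => exact ⟨t0, 1, Below.root⟩
  | append_singleton w d ih =>
    obtain ⟨t, ε, h⟩ := ih
    have hI := (below_inv h).1
    have h4 := hI.deg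
    have h5 := hI.ab
    cases d
    · obtain ⟨e, he⟩ : ∃ e : ℕ, (e : ℤ) = (t.c.natDegree : ℤ) - t.a.natDegree + ε :=
        ⟨((t.c.natDegree : ℤ) - t.a.natDegree + ε).toNat, by
          rcases hI.hε with h6 | h6 <;> omega⟩
      obtain ⟨d, hd⟩ := hI.I1 e he
      refine ⟨⟨t.a, t.c, d⟩, ε, Below.left h ⟨rfl, rfl, ?_⟩⟩
      rw [mut_iff ε t.a t.c t.b d e he, hd, mul_comm]
    · obtain ⟨e, he⟩ : ∃ e : ℕ, (e : ℤ) = (t.c.natDegree : ℤ) - t.b.natDegree + -ε :=
        ⟨((t.c.natDegree : ℤ) - t.b.natDegree + -ε).toNat, by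
          rcases hI.hε with h6 | h6 <;> omega⟩
      obtain ⟨d, hd⟩ := hI.I2 e (by rw [he]; ring)
      refine ⟨⟨t.b, t.c, d⟩, -ε, Below.right h ⟨rfl, rfl, ?_⟩⟩
      rw [mut_iff (-ε) t.b t.c t.a d e he, hd, mul_comm]

/-- **Main theorem.** Every position of the mirror Markov tree carries exactly one triple (all the
divisions are exact), and the map sending a vertex `(a, b, c)` to the polynomial `c` is injective:
if the triples `t`, `t'` at the positions `v`, `v'` have the same maximum, then `v = v'` and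
`t = t'`. -/
theorem result : (∀ v : Node, ∃! t : Triple, At v t) ∧
    ∀ (v v' : Node) (t t' : Triple), At v t → At v' t' → t.c = t'.c → v = v' ∧ t = t' := by
  have hu : ∀ v : Node, ∃! t : Triple, At v t := by
    intro v
    cases v with
    | top0 => exact ⟨_, rfl, fun _ h => h⟩
    | top1 => exact ⟨_, rfl, fun _ h => h⟩
    | below w =>
      obtain ⟨t, ε, h⟩ := below_exists w
      refine ⟨t, ⟨ε, h⟩, ?_⟩
      rintro t' ⟨ε', h'⟩
      exact (below_unique w _ _ _ _ h' h).1
  refine ⟨hu, ?_⟩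
  have key : ∀ (v v' : Node) (t t' : Triple), At v t → At v' t' → t.c = t'.c → v = v' := by
    -- degrees
    have hdeg : ∀ (w : List Dir) (t : Triple), At (Node.below w) t → 2 ≤ t.c.natDegree := by
      rintro w t ⟨ε, h⟩
      have h1 := (below_inv h).2.2.1
      have h2 := tot_pos w
      have h3 := h1.1
      unfold tot at h2
      omega
    have d1 : (1 + X : ℤ[X]).natDegree = 1 := t0b_natDegree
    have d0 : (1 : ℤ[X]).natDegree = 0 := natDegree_one
    intro v v' t t' h h' hc
    have hcd := congrArg natDegree hc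
    cases v with
    | top0 =>
      have h1 : t = ⟨1, 1, 1⟩ := h
      subst h1
      cases v' with
      | top0 => rfl
      | top1 =>
        exfalso
        have h2 : t' = ⟨1, 1, 1 + X⟩ := h'
        subst h2
        simp only at hcd
        omega
      | below w =>
        exfalso
        have := hdeg w t' h'
        simp only at hcd
        omega
    | top1 =>
      have h1 : t = ⟨1, 1, 1 + X⟩ := h
      subst h1
      cases v' with
      | top0 =>
        exfalso
        have h2 : t' = ⟨1, 1, 1⟩ := h'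
        subst h2
        simp only at hcd
        omega
      | top1 => rfl
      | below w =>
        exfalso
        have := hdeg w t' h'
        simp only at hcd
        omega
    | below w =>
      cases v' with
      | top0 =>
        exfalso
        have h2 : t' = ⟨1, 1, 1⟩ := h'
        subst h2
        have := hdeg w t h
        simp only at hcd
        omega
      | top1 =>
        exfalso
        have h2 : t' = ⟨1, 1, 1 + X⟩ := h'
        subst h2
        have := hdeg w t h
        simp only at hcd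
        omega
      | below w' =>
        obtain ⟨ε, hb⟩ := h
        obtain ⟨ε', hb'⟩ := h'
        have g1 := (below_inv hb).2.2.1
        have g2 := (below_inv hb').2.2.1
        rw [← hc] at g2
        have := good_unique _ _ _ g1 g2
        rw [tot_injective (this : tot w = tot w')]
  intro v v' t t' h h' hc
  have hv := key v v' t t' h h' hc
  subst hv
  exact ⟨rfl, (hu v).unique h h'⟩

end Pool.Agent.Results.MP_6870a6_co.MaximaDistinct
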